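import Pool.Agent.Y423.TC.Lab

set_option autoImplicit false
open Finset

namespace Pool.Agent.Y423.TC

/-- no `k` collinear points of the same colour -/
def Good {d k m : ℕ} (χ : (Fin d → Fin k) → Fin m) : Prop :=
  ∀ T : Finset (Fin d → Fin k), T.card = k → (∀ x ∈ T, ∀ y ∈ T, χ x = χ y) →
    ¬ Collinear ℝ ((fun (x : Fin d → Fin k) (i : Fin d) => (((x i : ℕ)) : ℝ)) ''
      (T : Set (Fin d → Fin k)))

/-- the explicit bound -/
noncomputable def rest (θ x : ℝ) : ℝ :=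
  2 + 16 * x ^ (4 * θ) * (36 * (θ * Real.logb 2 x + 1) * x ^ (1 / 2 : ℝ) + 1)

theorem explicit {θ : ℝ} (hθ : 0 < θ) {n k : ℕ} (hn : 2 ≤ n) (hk : 3 ≤ k) :
    ∃ (m : ℕ) (χ : (Fin n → Fin k) → Fin m), Good χ ∧
      (m : ℝ) ≤ (1 / (2 * θ)) * (n / Real.logb 2 n) + rest θ n := by
  have hn2 : (2 : ℝ) ≤ n := by exact_mod_cast hn
  have hn0 : (0 : ℝ) < n := by linarith
  have hn1 : (1 : ℝ) ≤ n := by linarith
  obtain ⟨P, hP, hnP, hP2n⟩ := Nat.exists_prime_lt_and_le_two_mul n (by omega)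
  set L : ℝ := Real.logb 2 n with hL
  have hL1 : 1 ≤ L := by
    rw [hL, Real.le_logb_iff_rpow_le (by norm_num) hn0]
    simpa using hn2
  set w : ℕ := ⌊θ * L⌋₊ + 1 with hw
  have hw1 : θ * L ≤ w := by
    rw [hw]; push_cast; exact (Nat.lt_floor_add_one _).le
  have hw2 : (w : ℝ) ≤ θ * L + 1 := by
    rw [hw]; push_cast
    have := Nat.floor_le (show (0 : ℝ) ≤ θ * L by positivity)
    linarith
  set g : ℝ := (n : ℝ) ^ (1 / 4 : ℝ) with hg
  have hg1 : 1 ≤ g := Real.one_le_rpow hn1 (by norm_num)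
  have hg4 : g ^ 4 = n := by
    rw [hg, ← Real.rpow_natCast, ← Real.rpow_mul hn0.le]; norm_num
  have hg2 : g ^ 2 = (n : ℝ) ^ (1 / 2 : ℝ) := by
    rw [hg, ← Real.rpow_natCast, ← Real.rpow_mul hn0.le]; norm_num
  set M : ℕ := ⌈2 * g⌉₊ with hM
  have hM1 : 2 * g ≤ M := Nat.le_ceil _
  have hM2 : (M : ℝ) ≤ 3 * g := by
    have := Nat.ceil_lt_add_one (show (0 : ℝ) ≤ 2 * g by linarith)
    rw [← hM] at this
    linarith
  have hMpos : 0 < M := by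
    have : (0 : ℝ) < M := by linarith
    exact_mod_cast this
  have hPM : P ≤ M ^ 4 := by
    have h1 : (P : ℝ) ≤ 2 * n := by exact_mod_cast hP2n
    have h2 : (2 * g) ^ 4 ≤ (M : ℝ) ^ 4 := pow_le_pow_left₀ (by linarith) hM1 4
    have h3 : (P : ℝ) ≤ (M : ℝ) ^ 4 := by
      have e : (2 * g) ^ 4 = 16 * n := by rw [mul_pow, hg4]; norm_num
      rw [e] at h2
      linarith
    exact_mod_cast h3
  obtain ⟨χ, hχ⟩ := colouring (n := n) (P := P) (M := M) (D := 4) (w := w) hP (by omega)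
    hnP hPM (by omega) hMpos hk
  refine ⟨_, χ, hχ, ?_⟩
  push_cast
  have a1 : ((n / (2 * w) : ℕ) : ℝ) ≤ (1 / (2 * θ)) * (n / L) := by
    have h1 : ((n / (2 * w) : ℕ) : ℝ) ≤ (n : ℝ) / ((2 * w : ℕ) : ℝ) := Nat.cast_div_le
    have hpos : 0 < 2 * (θ * L) := by positivity
    have h2 : (n : ℝ) / ((2 * w : ℕ) : ℝ) ≤ n / (2 * (θ * L)) := by
      push_cast
      gcongr
    have h3 : (n : ℝ) / (2 * (θ * L)) = (1 / (2 * θ)) * (n / L) := by
      field_simp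
    linarith
  have hkap : (kap 4 w : ℝ) ≤ 16 * (n : ℝ) ^ (4 * θ) := by
    unfold kap
    push_cast
    have h1 : ((2 : ℝ) ^ (w * 4)) = (2 : ℝ) ^ ((w : ℝ) * 4) := by
      rw [← Real.rpow_natCast]; push_cast; rfl
    have h2 : (2 : ℝ) ^ ((w : ℝ) * 4) ≤ (2 : ℝ) ^ (L * (4 * θ) + 4) := by
      apply Real.rpow_le_rpow_of_exponent_le (by norm_num)
      linarith
    have h3 : (2 : ℝ) ^ (L * (4 * θ) + 4) = (n : ℝ) ^ (4 * θ) * 16 := by
      rw [Real.rpow_add (by norm_num), Real.rpow_mul (by norm_num), hL,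
        Real.rpow_logb (by norm_num) (by norm_num) hn0]
      norm_num
    rw [h1]
    linarith
  have hkap0 : (0 : ℝ) ≤ kap 4 w := Nat.cast_nonneg _
  have a2 : (w : ℝ) * 4 * (M : ℝ) ^ 2 ≤ 36 * (θ * L + 1) * (n : ℝ) ^ (1 / 2 : ℝ) := by
    have h1 : (M : ℝ) ^ 2 ≤ 9 * (n : ℝ) ^ (1 / 2 : ℝ) := by
      have h2 : (M : ℝ) ^ 2 ≤ (3 * g) ^ 2 := pow_le_pow_left₀ (Nat.cast_nonneg _) hM2 2
      rw [mul_pow, hg2] at h2
      linarith
    calc (w : ℝ) * 4 * (M : ℝ) ^ 2 ≤ (θ * L + 1) * 4 * (9 * (n : ℝ) ^ (1 / 2 : ℝ)) := by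
          gcongr
      _ = _ := by ring
  have a3 : (kap 4 w : ℝ) * ((w : ℝ) * 4 * (M : ℝ) ^ 2) + kap 4 w ≤
      16 * (n : ℝ) ^ (4 * θ) * (36 * (θ * L + 1) * (n : ℝ) ^ (1 / 2 : ℝ) + 1) := by
    have h1 : (kap 4 w : ℝ) * ((w : ℝ) * 4 * (M : ℝ) ^ 2) + kap 4 w =
        (kap 4 w : ℝ) * ((w : ℝ) * 4 * (M : ℝ) ^ 2 + 1) := by ring
    rw [h1]
    gcongr
  unfold rest
  rw [← hL]
  linarith

/-- the error term -/
theorem rest_le {θ : ℝ} (hθ : 0 < θ) (hθ8 : θ < 1 / 8) : ∃ B s : ℝ, 0 < B ∧ 0 < s ∧ ∀ x : ℝ,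
    2 ≤ x → rest θ x * Real.logb 2 x ≤ B * x ^ (1 - s) := by
  set s : ℝ := (1 / 2 - 4 * θ) / 3 with hs
  have hs0 : 0 < s := by rw [hs]; linarith
  set A : ℝ := 1 / (s * Real.log 2) with hA
  have hlog2 : 0 < Real.log 2 := Real.log_pos (by norm_num)
  have hA0 : 0 < A := by rw [hA]; positivity
  set E : ℝ := 2 + 16 * (36 * (θ * A + 1) + 1) with hE
  have hE0 : 0 < E := by rw [hE]; positivity
  refine ⟨E * A, s, by positivity, hs0, fun x hx => ?_⟩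
  have hx0 : 0 < x := by linarith
  have hx1 : 1 ≤ x := by linarith
  have hL : Real.logb 2 x ≤ A * x ^ s := by
    have h1 := Real.log_le_rpow_div hx0.le hs0
    unfold Real.logb
    rw [hA, div_le_iff₀ hlog2]
    have e : 1 / (s * Real.log 2) * x ^ s * Real.log 2 = x ^ s / s := by
      field_simp
    rw [e]; exact h1
  have hL0 : 0 ≤ Real.logb 2 x := Real.logb_nonneg (by norm_num) hx1
  have hxs : 1 ≤ x ^ s := Real.one_le_rpow hx1 hs0.le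
  have hxh : 1 ≤ x ^ (1 / 2 : ℝ) := Real.one_le_rpow hx1 (by norm_num)
  have hx4 : 1 ≤ x ^ (4 * θ) := Real.one_le_rpow hx1 (by positivity)
  have hrest : rest θ x ≤ E * x ^ (1 - 2 * s) := by
    have h1 : θ * Real.logb 2 x + 1 ≤ (θ * A + 1) * x ^ s := by
      have : θ * Real.logb 2 x ≤ θ * (A * x ^ s) := by gcongr
      nlinarith
    have h2 : 36 * (θ * Real.logb 2 x + 1) * x ^ (1 / 2 : ℝ) + 1 ≤
        (36 * (θ * A + 1) + 1) * (x ^ s * x ^ (1 / 2 : ℝ)) := by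
      have h3 : 36 * (θ * Real.logb 2 x + 1) * x ^ (1 / 2 : ℝ) ≤
          36 * ((θ * A + 1) * x ^ s) * x ^ (1 / 2 : ℝ) := by gcongr
      have h4 : 1 ≤ x ^ s * x ^ (1 / 2 : ℝ) := one_le_mul_of_one_le_of_one_le hxs hxh
      nlinarith
    have h5 : x ^ (4 * θ) * (x ^ s * x ^ (1 / 2 : ℝ)) = x ^ (1 - 2 * s) := by
      rw [← Real.rpow_add hx0, ← Real.rpow_add hx0]
      congr 1
      rw [hs]; ring
    have h6 : 1 ≤ x ^ (1 - 2 * s) := by
      rw [← h5]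
      exact one_le_mul_of_one_le_of_one_le hx4 (one_le_mul_of_one_le_of_one_le hxs hxh)
    unfold rest
    have h7 : 16 * x ^ (4 * θ) * (36 * (θ * Real.logb 2 x + 1) * x ^ (1 / 2 : ℝ) + 1) ≤
        16 * x ^ (4 * θ) * ((36 * (θ * A + 1) + 1) * (x ^ s * x ^ (1 / 2 : ℝ))) := by gcongr
    have h8 : 16 * x ^ (4 * θ) * ((36 * (θ * A + 1) + 1) * (x ^ s * x ^ (1 / 2 : ℝ))) =
        16 * (36 * (θ * A + 1) + 1) * x ^ (1 - 2 * s) := by
      rw [← h5]; ring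
    rw [hE]
    rw [h8] at h7
    nlinarith
  have hr0 : 0 ≤ E * x ^ (1 - 2 * s) := by positivity
  calc rest θ x * Real.logb 2 x ≤ (E * x ^ (1 - 2 * s)) * (A * x ^ s) := by gcongr
    _ = E * A * (x ^ (1 - 2 * s) * x ^ s) := by ring
    _ = E * A * x ^ (1 - s) := by
        rw [← Real.rpow_add hx0]
        congr 2
        ring

theorem all_d : ∃ C : ℝ, ∀ k d : ℕ, 3 ≤ k → 2 ≤ d →
    ∃ (m : ℕ) (χ : (Fin d → Fin k) → Fin m), Good χ ∧ (m : ℝ) ≤ C * d / Real.log d := by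
  obtain ⟨B, s, hB, hs, hr⟩ := rest_le (θ := 1 / 16) (by norm_num) (by norm_num)
  have hlog2 : 0 < Real.log 2 := Real.log_pos (by norm_num)
  refine ⟨(8 + B) * Real.log 2, fun k d hk hd => ?_⟩
  obtain ⟨m, χ, hχ, hm⟩ := explicit (θ := 1 / 16) (by norm_num) hd hk
  refine ⟨m, χ, hχ, hm.trans ?_⟩
  have hd2 : (2 : ℝ) ≤ d := by exact_mod_cast hd
  have hd0 : (0 : ℝ) < d := by linarith
  have hL0 : 0 < Real.logb 2 d := Real.logb_pos (by norm_num) (by linarith)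
  have hlogd : 0 < Real.log d := Real.log_pos (by linarith)
  have h1 := hr d hd2
  have h2 : (d : ℝ) ^ (1 - s) ≤ d := by
    calc (d : ℝ) ^ (1 - s) ≤ (d : ℝ) ^ (1 : ℝ) :=
          Real.rpow_le_rpow_of_exponent_le (by linarith) (by linarith)
      _ = d := Real.rpow_one _
  have h3 : rest (1 / 16) d ≤ B * (d / Real.logb 2 d) := by
    rw [mul_div_assoc', le_div_iff₀ hL0]
    exact h1.trans (by gcongr)
  have h4 : (8 + B) * Real.log 2 * d / Real.log d = (8 + B) * (d / Real.logb 2 d) := by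
    unfold Real.logb
    field_simp
  rw [h4]
  have h5 : (1 / (2 * (1 / 16 : ℝ))) * (d / Real.logb 2 d) = 8 * (d / Real.logb 2 d) := by norm_num
  rw [h5]
  linarith

theorem large_d : ∀ ε : ℝ, 0 < ε → ∃ N : ℕ, ∀ k d : ℕ, 3 ≤ k → N ≤ d →
    ∃ (m : ℕ) (χ : (Fin d → Fin k) → Fin m), Good χ ∧
      (m : ℝ) ≤ (4 + ε) * d / Real.logb 2 d := by
  intro ε hε
  set θ : ℝ := 1 / (8 + ε) with hθ
  have hθ0 : 0 < θ := by rw [hθ]; positivity
  have hθ8 : θ < 1 / 8 := by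
    rw [hθ]
    exact one_div_lt_one_div_of_lt (by norm_num) (by linarith)
  obtain ⟨B, s, hB, hs, hr⟩ := rest_le hθ0 hθ8
  have hlim : Filter.Tendsto (fun x : ℝ => B * x ^ (-s)) Filter.atTop (nhds (B * 0)) :=
    (tendsto_rpow_neg_atTop hs).const_mul B
  rw [mul_zero] at hlim
  have hev := (hlim.eventually (gt_mem_nhds (show (0 : ℝ) < ε / 2 by linarith)))
  obtain ⟨x0, hx0⟩ := Filter.eventually_atTop.1 hev
  obtain ⟨N0, hN0⟩ := exists_nat_ge x0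
  refine ⟨max N0 2, fun k d hk hd => ?_⟩
  have hd2' : 2 ≤ d := le_trans (le_max_right _ _) hd
  have hdN : N0 ≤ d := le_trans (le_max_left _ _) hd
  obtain ⟨m, χ, hχ, hm⟩ := explicit hθ0 hd2' hk
  refine ⟨m, χ, hχ, hm.trans ?_⟩
  have hd2 : (2 : ℝ) ≤ d := by exact_mod_cast hd2'
  have hd0 : (0 : ℝ) < d := by linarith
  have hL0 : 0 < Real.logb 2 d := Real.logb_pos (by norm_num) (by linarith)
  have h0 := hx0 d (hN0.trans (by exact_mod_cast hdN))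
  have h1 := hr d hd2
  have h2 : B * (d : ℝ) ^ (1 - s) ≤ (ε / 2) * d := by
    have e : (d : ℝ) ^ (1 - s) = (d : ℝ) ^ (-s) * d := by
      rw [show 1 - s = -s + 1 by ring, Real.rpow_add hd0, Real.rpow_one]
    rw [e, ← mul_assoc]
    exact mul_le_mul_of_nonneg_right h0.le hd0.le
  have h3 : rest θ d ≤ (ε / 2) * (d / Real.logb 2 d) := by
    rw [mul_div_assoc', le_div_iff₀ hL0]
    exact h1.trans h2
  have h4 : (4 + ε) * d / Real.logb 2 d = (4 + ε) * (d / Real.logb 2 d) := by ring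
  have h5 : 1 / (2 * θ) = 4 + ε / 2 := by rw [hθ]; field_simp; ring
  rw [h4, h5]
  linarith

end Pool.Agent.Y423.TC
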