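import Mathlib

set_option autoImplicit false
open Finset

namespace Pool.Agent.Y423.TC

/-- Newton's identities: equal power sums give equal elementary symmetric functions -/
theorem esymm_eq {F : Type*} [Field F] {s : ℕ} (hchar : ∀ k : ℕ, 0 < k → k ≤ s → (k : F) ≠ 0)
    (a b : Fin s → F) (h : ∀ j, 1 ≤ j → j ≤ s → ∑ i, a i ^ j = ∑ i, b i ^ j) :
    ∀ k ≤ s, MvPolynomial.aeval a (MvPolynomial.esymm (Fin s) F k) =
      MvPolynomial.aeval b (MvPolynomial.esymm (Fin s) F k) := by
  intro k
  induction k using Nat.strong_induction_on with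
  | _ k ih =>
    intro hks
    rcases Nat.eq_zero_or_pos k with rfl | hk
    · simp
    have hN := MvPolynomial.mul_esymm_eq_sum (Fin s) F k
    have ha := congrArg (MvPolynomial.aeval a) hN
    have hb := congrArg (MvPolynomial.aeval b) hN
    simp only [map_mul, map_sum, map_pow, map_neg, map_one, map_natCast] at ha hb
    have hsum : ∀ x ∈ (Finset.HasAntidiagonal.antidiagonal k).filter (fun x : ℕ × ℕ => x.1 < k),
        (-1 : F) ^ x.1 * MvPolynomial.aeval a (MvPolynomial.esymm (Fin s) F x.1) *
          MvPolynomial.aeval a (MvPolynomial.psum (Fin s) F x.2) =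
        (-1 : F) ^ x.1 * MvPolynomial.aeval b (MvPolynomial.esymm (Fin s) F x.1) *
          MvPolynomial.aeval b (MvPolynomial.psum (Fin s) F x.2) := by
      intro x hx
      rw [mem_filter, Finset.HasAntidiagonal.mem_antidiagonal] at hx
      rw [ih x.1 hx.2 (by omega)]
      congr 1
      unfold MvPolynomial.psum
      simp only [map_sum, map_pow, MvPolynomial.aeval_X]
      exact h x.2 (by omega) (by omega)
    have hk0 := hchar k hk hks
    apply mul_left_cancel₀ hk0
    rw [ha, hb]
    congr 1
    exact sum_congr rfl hsum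

/-- two families of the same size `s ≥ 1` with equal power sums up to `s` have a common member -/
theorem common {F : Type*} [Field F] {s : ℕ} (hs : 0 < s)
    (hchar : ∀ k : ℕ, 0 < k → k ≤ s → (k : F) ≠ 0)
    (a b : Fin s → F) (h : ∀ j, 1 ≤ j → j ≤ s → ∑ i, a i ^ j = ∑ i, b i ^ j) :
    ∃ i i', a i = b i' := by
  classical
  have hE := esymm_eq hchar a b h
  have hpoly : ((univ.val.map a).map fun r => Polynomial.X + Polynomial.C r).prod =
      ((univ.val.map b).map fun r => Polynomial.X + Polynomial.C r).prod := by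
    rw [Multiset.prod_X_add_C_eq_sum_esymm, Multiset.prod_X_add_C_eq_sum_esymm]
    simp only [Multiset.card_map, Finset.card_val, Finset.card_univ, Fintype.card_fin]
    refine sum_congr rfl fun j hj => ?_
    rw [mem_range] at hj
    have := hE j (by omega)
    rw [MvPolynomial.aeval_esymm_eq_multiset_esymm, MvPolynomial.aeval_esymm_eq_multiset_esymm]
      at this
    rw [this]
  set i' : Fin s := ⟨0, hs⟩
  have h1 := congrArg (Polynomial.eval (-(b i'))) hpoly
  simp only [Multiset.map_map, Function.comp_def] at h1
  have e1 : (Multiset.map (fun x => Polynomial.X + Polynomial.C (a x)) univ.val).prod =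
      ∏ x : Fin s, (Polynomial.X + Polynomial.C (a x)) := rfl
  have e2 : (Multiset.map (fun x => Polynomial.X + Polynomial.C (b x)) univ.val).prod =
      ∏ x : Fin s, (Polynomial.X + Polynomial.C (b x)) := rfl
  rw [e1, e2, Polynomial.eval_prod, Polynomial.eval_prod] at h1
  have h2 : ∏ x : Fin s, Polynomial.eval (-(b i')) (Polynomial.X + Polynomial.C (b x)) = 0 :=
    prod_eq_zero (mem_univ i') (by simp)
  rw [h2, prod_eq_zero_iff] at h1
  obtain ⟨i, _, hi⟩ := h1
  refine ⟨i, i', ?_⟩
  simp only [Polynomial.eval_add, Polynomial.eval_X, Polynomial.eval_C] at hi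
  linear_combination hi

end Pool.Agent.Y423.TC
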