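import Pool.Agent.Helper431.Moser3
import Pool.Agent.Y423.TC.PTE

set_option autoImplicit false
open Finset

namespace Pool.Agent.Y423.TC

open Pool.Agent.Helper431.Moser (dig parity_of_digits dig_mid digits_inj lab supp Triple uu uu_le)

variable {n : ℕ}

/-- labels modulo a prime -/
def labP (P : ℕ) (u : Fin n → ℕ) (j : ℕ) : ℕ := lab u j % P

def Q (P M D w : ℕ) (u : Fin n → ℕ) : ℕ :=
  ∑ j ∈ range w, ∑ l ∈ range D, (dig M (labP P u j) l) ^ 2

def par (P M D w : ℕ) (u : Fin n → ℕ) : Fin w × Fin D → Bool :=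
  fun jl => decide (dig M (labP P u jl.1) jl.2 % 2 = 1)

def kap (D w : ℕ) : ℕ := 2 ^ (w * D)

theorem card_bool (D w : ℕ) : Fintype.card (Fin w × Fin D → Bool) = kap D w := by
  unfold kap
  simp

noncomputable def code (P M D w : ℕ) (u : Fin n → ℕ) : ℕ :=
  (Fintype.equivFin (Fin w × Fin D → Bool) (par P M D w u)).val

theorem code_lt (P M D w : ℕ) (u : Fin n → ℕ) : code P M D w u < kap D w := by
  rw [← card_bool]
  exact (Fintype.equivFin (Fin w × Fin D → Bool) (par P M D w u)).isLt

theorem par_of_code {P M D w : ℕ} {u v : Fin n → ℕ} (h : code P M D w u = code P M D w v) :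
    par P M D w u = par P M D w v :=
  (Fintype.equivFin _).injective (Fin.ext h)

noncomputable def col (P M D w : ℕ) (u : Fin n → ℕ) : ℕ := kap D w * Q P M D w u + code P M D w u

noncomputable def F (P M D w : ℕ) (u : Fin n → ℕ) : ℕ := supp u + 2 * w * col P M D w u

theorem col_of_lab {P M D w : ℕ} {u v : Fin n → ℕ} (h : ∀ j < w, labP P u j = labP P v j) :
    col P M D w u = col P M D w v := by
  have h1 : Q P M D w u = Q P M D w v := by
    unfold Q
    refine sum_congr rfl (fun j hj => ?_)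
    rw [h j (mem_range.1 hj)]
  have h2 : par P M D w u = par P M D w v := by
    funext jl
    unfold par
    rw [h jl.1 jl.1.2]
  unfold col code
  rw [h1, h2]

theorem labP_mid {P : ℕ} (hP : P.Prime) (hP2 : 2 < P) {p y q : Fin n → ℕ} (h : Triple p y q)
    (j : ℕ) (hpar : labP P p j % 2 = labP P q j % 2) :
    2 * labP P y j = labP P p j + labP P q j := by
  unfold labP at *
  have hadd := h.lab_add j
  set a := lab p j % P with ha
  set b := lab q j % P with hb
  set m := lab y j % P with hm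
  have hPpos : 0 < P := hP.pos
  have la : a < P := Nat.mod_lt _ hPpos
  have lb : b < P := Nat.mod_lt _ hPpos
  have lm : m < P := Nat.mod_lt _ hPpos
  obtain ⟨e, he⟩ : ∃ e, 2 * e = a + b := ⟨(a + b) / 2, by omega⟩
  have h1 : 2 * m ≡ 2 * e [MOD P] := by
    rw [he]
    have h2 : 2 * m ≡ 2 * lab y j [MOD P] := (Nat.mod_modEq _ _).mul_left 2
    have h3 : a + b ≡ lab p j + lab q j [MOD P] := (Nat.mod_modEq _ _).add (Nat.mod_modEq _ _)
    rw [hadd] at h2
    exact h2.trans h3.symm
  have hco : Nat.gcd P 2 = 1 := by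
    rw [← Nat.coprime_iff_gcd_eq_one, Nat.coprime_comm]
    exact (Nat.coprime_primes Nat.prime_two hP).2 (by omega)
  have h4 : m ≡ e [MOD P] := Nat.ModEq.cancel_left_of_coprime hco h1
  have h5 : m = e := Nat.ModEq.eq_of_lt_of_lt h4 lm (by omega)
  omega

/-- Prouhet, Tarry, Escott modulo `P`: equal labels force at least `2 w` changing coordinates. -/
theorem big {P : ℕ} (hP : P.Prime) (hP2 : 2 < P) (hnP : n < P) {p y q : Fin n → ℕ}
    (h : Triple p y q) {w : ℕ} (hw : 0 < w)
    (hl : ∀ j < w, labP P p j = labP P q j) : 2 * w ≤ (univ.filter (fun i => p i ≠ q i)).card := by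
  have : Fact P.Prime := ⟨hP⟩
  by_contra hcon
  push Not at hcon
  set A := univ.filter (fun i : Fin n => p i = 2 ∧ q i = 0) with hA
  set B := univ.filter (fun i : Fin n => p i = 0 ∧ q i = 2) with hB
  have hdisj : Disjoint A B := by
    rw [disjoint_left]
    intro i hi hi'
    simp only [hA, hB, mem_filter, mem_univ, true_and] at hi hi'
    omega
  have hR : univ.filter (fun i : Fin n => p i ≠ q i) = A ∪ B := by
    ext i
    simp only [hA, hB, mem_filter, mem_univ, true_and, mem_union]
    rcases h.1 i with ⟨h1, h2⟩ | ⟨h1, h2, h3⟩ | ⟨h1, h2, h3⟩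
    · rw [h1, h2]; omega
    · rw [h1, h3]; simp
    · rw [h1, h3]; simp
  have hpos := h.card_pos
  rw [hR, card_union_of_disjoint hdisj] at hpos hcon
  have two_ne : (2 : ZMod P) ≠ 0 := by
    intro h0
    have h1 : ((2 : ℕ) : ZMod P) = 0 := by exact_mod_cast h0
    rw [ZMod.natCast_eq_zero_iff] at h1
    have := Nat.le_of_dvd (by norm_num) h1
    omega
  -- the power sums over the two sides agree
  have hpow : ∀ j < w, ∑ i ∈ A, ((i : ℕ) : ZMod P) ^ j = ∑ i ∈ B, ((i : ℕ) : ZMod P) ^ j := by
    intro j hj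
    have h1 := hl j hj
    have h2 : ((lab p j : ℕ) : ZMod P) = ((lab q j : ℕ) : ZMod P) := by
      rw [ZMod.natCast_eq_natCast_iff]
      exact h1
    unfold lab at h2
    push_cast at h2
    rw [← sub_eq_zero, ← sum_sub_distrib] at h2
    have h3 : ∑ i : Fin n, ((p i : ZMod P) * ((i : ℕ) : ZMod P) ^ j -
        (q i : ZMod P) * ((i : ℕ) : ZMod P) ^ j) =
        2 * ∑ i ∈ A, ((i : ℕ) : ZMod P) ^ j - 2 * ∑ i ∈ B, ((i : ℕ) : ZMod P) ^ j := by
      rw [mul_sum, mul_sum, hA, hB, sum_filter, sum_filter, ← sum_sub_distrib]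
      refine sum_congr rfl fun i _ => ?_
      rcases h.1 i with ⟨g1, g2⟩ | ⟨g1, g2, g3⟩ | ⟨g1, g2, g3⟩
      · have e1 : ¬ (p i = 2 ∧ q i = 0) := by omega
        have e2 : ¬ (p i = 0 ∧ q i = 2) := by omega
        rw [if_neg e1, if_neg e2, g1, g2]; ring
      · rw [g1, g3]; simp
      · rw [g1, g3]; simp
    rw [h3, ← mul_sub] at h2
    exact sub_eq_zero.1 ((mul_eq_zero.1 h2).resolve_left two_ne)
  -- the two sides have the same size
  have hcardle : ∀ S : Finset (Fin n), S.card < P := fun S =>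
    lt_of_le_of_lt (card_le_univ S) (by rwa [Fintype.card_fin])
  have hAB : A.card = B.card := by
    have h0 := hpow 0 hw
    simp only [pow_zero, sum_const, nsmul_eq_mul, mul_one] at h0
    rw [ZMod.natCast_eq_natCast_iff] at h0
    exact Nat.ModEq.eq_of_lt_of_lt h0 (hcardle A) (hcardle B)
  set s := A.card with hs
  have hs0 : 0 < s := by omega
  have hsw : s < w := by omega
  set e := A.orderEmbOfFin hs.symm with he
  set e' := B.orderEmbOfFin hAB.symm with he'
  have key : ∀ (S : Finset (Fin n)) (hS : S.card = s) (j : ℕ),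
      ∑ i : Fin s, (((S.orderEmbOfFin hS i : Fin n) : ℕ) : ZMod P) ^ j =
        ∑ i ∈ S, ((i : ℕ) : ZMod P) ^ j := by
    intro S hS j
    have h4 : S = univ.map (S.orderEmbOfFin hS).toEmbedding := by
      ext i
      simp only [mem_map, mem_univ, true_and]
      constructor
      · intro hi
        have : i ∈ Set.range (S.orderEmbOfFin hS) := by
          rw [S.range_orderEmbOfFin hS]; exact hi
        obtain ⟨a, ha⟩ := this
        exact ⟨a, ha⟩
      · rintro ⟨a, ha⟩
        rw [← ha]
        exact S.orderEmbOfFin_mem hS a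
    conv_rhs => rw [h4, sum_map]
    rfl
  obtain ⟨i, i', hii⟩ := common (F := ZMod P) hs0 (fun k hk0 hks => by
      intro h0
      rw [ZMod.natCast_eq_zero_iff] at h0
      have := Nat.le_of_dvd hk0 h0
      have := hcardle A
      omega)
    (fun i : Fin s => (((e i : Fin n) : ℕ) : ZMod P))
    (fun i : Fin s => (((e' i : Fin n) : ℕ) : ZMod P)) (by
      intro j hj1 hjs
      rw [he, he', key A hs.symm j, key B hAB.symm j]
      exact hpow j (by omega))
  rw [ZMod.natCast_eq_natCast_iff] at hii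
  have h5 : (e i : ℕ) = (e' i' : ℕ) :=
    Nat.ModEq.eq_of_lt_of_lt hii (lt_trans (e i).2 hnP) (lt_trans (e' i').2 hnP)
  have h6 : e i = e' i' := Fin.ext h5
  have h7 : e i ∈ A := A.orderEmbOfFin_mem hs.symm i
  have h8 : e' i' ∈ B := B.orderEmbOfFin_mem hAB.symm i'
  rw [← h6] at h8
  exact disjoint_left.1 hdisj h7 h8

theorem Q_lt {P M D w : ℕ} (hP : P.Prime) (hP2 : 2 < P) (hPM : P ≤ M ^ D) {p y q : Fin n → ℕ}
    (h : Triple p y q)
    (hpar : par P M D w p = par P M D w q) (hQ : Q P M D w p = Q P M D w q)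
    (hne : ∃ j < w, labP P p j ≠ labP P q j) : Q P M D w y < Q P M D w p := by
  have hlt0 : ∀ u : Fin n → ℕ, ∀ j, labP P u j < M ^ D := fun u j =>
    lt_of_lt_of_le (Nat.mod_lt _ hP.pos) hPM
  have hpar' : ∀ j < w, ∀ l < D, dig M (labP P p j) l % 2 = dig M (labP P q j) l % 2 := by
    intro j hj l hl
    have := congrFun hpar (⟨j, hj⟩, ⟨l, hl⟩)
    unfold par at this
    simp only [decide_eq_decide] at this
    omega
  have hmid : ∀ j < w, ∀ l < D, 2 * dig M (labP P y j) l =
      dig M (labP P p j) l + dig M (labP P q j) l :=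
    fun j hj => dig_mid D _ _ _ (hlt0 p j) (hlt0 q j) (hpar' j hj)
      (labP_mid hP hP2 h j (parity_of_digits D _ _ (hlt0 p j) (hlt0 q j) (hpar' j hj)))
  have hQs : ∀ u : Fin n → ℕ, Q P M D w u =
      ∑ jl ∈ range w ×ˢ range D, (dig M (labP P u jl.1) jl.2) ^ 2 := by
    intro u
    unfold Q
    rw [sum_product]
  have hle : ∀ jl ∈ range w ×ˢ range D, 2 * (dig M (labP P y jl.1) jl.2) ^ 2 ≤
      (dig M (labP P p jl.1) jl.2) ^ 2 + (dig M (labP P q jl.1) jl.2) ^ 2 := by
    intro jl hjl
    rw [mem_product, mem_range, mem_range] at hjl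
    have := hmid jl.1 hjl.1 jl.2 hjl.2
    zify at this ⊢
    nlinarith [sq_nonneg ((dig M (labP P p jl.1) jl.2 : ℤ) - (dig M (labP P q jl.1) jl.2 : ℤ))]
  obtain ⟨j, hj, hnej⟩ := hne
  have hex : ∃ l < D, dig M (labP P p j) l ≠ dig M (labP P q j) l := by
    by_contra hcon
    push Not at hcon
    exact hnej (digits_inj D _ _ (hlt0 p j) (hlt0 q j) hcon)
  obtain ⟨l, hl, hnel⟩ := hex
  have hlt : 2 * ∑ jl ∈ range w ×ˢ range D, (dig M (labP P y jl.1) jl.2) ^ 2 <
      ∑ jl ∈ range w ×ˢ range D, ((dig M (labP P p jl.1) jl.2) ^ 2 +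
        (dig M (labP P q jl.1) jl.2) ^ 2) := by
    rw [mul_sum]
    refine sum_lt_sum hle ⟨(j, l), by simp [hj, hl], ?_⟩
    have := hmid j hj l hl
    simp only
    have hne2 : (dig M (labP P p j) l : ℤ) - (dig M (labP P q j) l : ℤ) ≠ 0 := by
      intro h0
      apply hnel
      have : (dig M (labP P p j) l : ℤ) = (dig M (labP P q j) l : ℤ) := by linarith
      exact_mod_cast this
    have hpos := pow_pos (lt_of_le_of_ne (abs_nonneg _) (abs_ne_zero.2 hne2).symm) 2
    rw [sq_abs] at hpos
    zify at this ⊢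
    nlinarith
  rw [sum_add_distrib, ← hQs, ← hQs, ← hQs, ← hQ] at hlt
  omega

theorem no_triple {P M D w : ℕ} (hP : P.Prime) (hP2 : 2 < P) (hnP : n < P) (hPM : P ≤ M ^ D)
    (hw : 0 < w) {p y q : Fin n → ℕ} (h : Triple p y q)
    (hFq : F P M D w p / (2 * w) = F P M D w q / (2 * w)) (hFy : F P M D w p / (2 * w) = F P M D w y / (2 * w)) :
    False := by
  have hs := h.supp_eq
  have hrpos := h.card_pos
  set r := (univ.filter (fun i => p i ≠ q i)).card with hr
  have hwin : ∀ A B : ℕ, A / (2 * w) = B / (2 * w) → A < B + 2 * w := by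
    intro A B hAB
    have h1 := Nat.div_add_mod A (2 * w)
    have h2 := Nat.div_add_mod B (2 * w)
    have h3 := Nat.mod_lt A (show 0 < 2 * w by omega)
    rw [hAB] at h1
    omega
  have k1 := hwin _ _ hFq
  have k2 := hwin _ _ hFq.symm
  have k3 := hwin _ _ hFy
  unfold F at k1 k2 k3
  have hcol : col P M D w p = col P M D w q := by
    rcases lt_trichotomy (col P M D w p) (col P M D w q) with hlt | heq | hlt
    · exfalso
      have : 2 * w * (col P M D w p + 1) ≤ 2 * w * col P M D w q := Nat.mul_le_mul_left _ hlt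
      rw [mul_add, mul_one] at this
      omega
    · exact heq
    · exfalso
      have : 2 * w * (col P M D w q + 1) ≤ 2 * w * col P M D w p := Nat.mul_le_mul_left _ hlt
      rw [mul_add, mul_one] at this
      omega
  by_cases hlab : ∀ j < w, labP P p j = labP P q j
  · have hbig := big hP hP2 hnP h hw hlab
    rw [← hr] at hbig
    have hy : ∀ j < w, labP P p j = labP P y j := by
      intro j hj
      have := labP_mid hP hP2 h j (by rw [hlab j hj])
      rw [← hlab j hj] at this
      omega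
    have := col_of_lab (M := M) (D := D) hy
    rw [this] at k3
    omega
  · push Not at hlab
    have hkpos : 0 < kap D w := lt_of_le_of_lt (Nat.zero_le _) (code_lt P M D w p)
    have hQeq : Q P M D w p = Q P M D w q := by
      have h1 : col P M D w p / kap D w = Q P M D w p := by
        unfold col
        rw [Nat.mul_add_div hkpos, Nat.div_eq_of_lt (code_lt P M D w p), add_zero]
      have h2 : col P M D w q / kap D w = Q P M D w q := by
        unfold col
        rw [Nat.mul_add_div hkpos, Nat.div_eq_of_lt (code_lt P M D w q), add_zero]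
      rw [← h1, ← h2, hcol]
    have hcode : code P M D w p = code P M D w q := by
      have h1 : col P M D w p % kap D w = code P M D w p := by
        unfold col
        rw [Nat.mul_add_mod, Nat.mod_eq_of_lt (code_lt P M D w p)]
      have h2 : col P M D w q % kap D w = code P M D w q := by
        unfold col
        rw [Nat.mul_add_mod, Nat.mod_eq_of_lt (code_lt P M D w q)]
      rw [← h1, ← h2, hcol]
    have hlt := Q_lt hP hP2 hPM h (par_of_code hcode) hQeq hlab
    have hc : col P M D w y + 1 ≤ col P M D w p := by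
      have h1 : kap D w * (Q P M D w y + 1) ≤ kap D w * Q P M D w p := Nat.mul_le_mul_left _ hlt
      have h2 := code_lt P M D w y
      unfold col
      rw [mul_add, mul_one] at h1
      omega
    have : 2 * w * (col P M D w y + 1) ≤ 2 * w * col P M D w p := Nat.mul_le_mul_left _ hc
    rw [mul_add, mul_one] at this
    omega

theorem col_le {P M D w : ℕ} (hM : 0 < M) (u : Fin n → ℕ) :
    col P M D w u < kap D w * (w * D * M ^ 2) + kap D w := by
  have hQ : Q P M D w u ≤ w * D * M ^ 2 := by
    unfold Q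
    have h1 : ∀ j ∈ range w, ∑ l ∈ range D, (dig M (labP P u j) l) ^ 2 ≤ D * M ^ 2 := by
      intro j _
      have h2 : ∀ l ∈ range D, (dig M (labP P u j) l) ^ 2 ≤ M ^ 2 := by
        intro l _
        exact Nat.pow_le_pow_left (Nat.mod_lt _ hM).le 2
      have := sum_le_sum h2
      rwa [sum_const, card_range, smul_eq_mul] at this
    have := sum_le_sum h1
    rw [sum_const, card_range, smul_eq_mul] at this
    rw [mul_assoc]; exact this
  have h3 := code_lt P M D w u
  have h4 : kap D w * Q P M D w u ≤ kap D w * (w * D * M ^ 2) := Nat.mul_le_mul_left _ hQ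
  unfold col
  omega

/-- the colouring, with all parameters -/
theorem colouring {P M D w : ℕ} (hP : P.Prime) (hP2 : 2 < P) (hnP : n < P) (hPM : P ≤ M ^ D)
    (hw : 0 < w) (hM : 0 < M) {k : ℕ} (hk : 3 ≤ k) :
    ∃ χ : (Fin n → Fin k) → Fin (n / (2 * w) + 2 + (kap D w * (w * D * M ^ 2) + kap D w)),
      ∀ T : Finset (Fin n → Fin k), T.card = k → (∀ x ∈ T, ∀ y ∈ T, χ x = χ y) →
        ¬ Collinear ℝ ((fun (x : Fin n → Fin k) (i : Fin n) => (((x i : ℕ)) : ℝ)) ''
              (T : Set (Fin n → Fin k))) := by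
  classical
  set Cm := kap D w * (w * D * M ^ 2) + kap D w with hCm
  have hcol : ∀ x : Fin n → Fin k, F P M D w (uu x) / (2 * w) < n / (2 * w) + 2 + Cm := by
    intro x
    have h4 := col_le (P := P) (M := M) (D := D) (w := w) hM (uu x)
    rw [← hCm] at h4
    apply Nat.div_lt_of_lt_mul
    unfold F
    have e0 : supp (uu x) ≤ n := by
      unfold supp
      exact (card_filter_le _ _).trans (by rw [card_univ, Fintype.card_fin])
    have e1 := Nat.div_add_mod n (2 * w)
    have e2 := Nat.mod_lt n (show 0 < 2 * w by omega)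
    have e5 : 2 * w * col P M D w (uu x) ≤ 2 * w * Cm := Nat.mul_le_mul_left _ h4.le
    have e6 : 2 * w * (n / (2 * w) + 2 + Cm) =
        2 * w * (n / (2 * w)) + 2 * w + 2 * w + 2 * w * Cm := by ring
    omega
  refine ⟨fun x => ⟨F P M D w (uu x) / (2 * w), hcol x⟩, fun T hT hmono hcl => ?_⟩
  obtain ⟨p, hp, y, hy, q, hq, htr⟩ :=
    Pool.Agent.Helper431.Moser.triple_of_collinear hk T hT hcl
  have h1 := congrArg Fin.val (hmono p hp q hq)
  have h2 := congrArg Fin.val (hmono p hp y hy)
  exact no_triple hP hP2 hnP hPM hw htr h1 h2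

end Pool.Agent.Y423.TC
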